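import Pool.Agent.H85.Fold4.Nice

/-!
# Complexes whose links are homology spheres with folded vertex links

`SL H k`: the flag complex of `H` is a real homology sphere of dimension `2 k`, and the links of its vertices are
in the class `Folding` (for `2 k`).  All full subcomplexes of such a complex are in the class `Vanish` (for `k`), and a
complex is in the class `Vanish` (for `k + m`), if the links of its cliques with `m` vertices are full subcomplexes
of such complexes.
-/

set_option autoImplicit false
set_option linter.unusedSectionVars false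

open Finset

namespace Pool.Agent.H67.LF

open Pool.Agent.H85.Fold4

/-- A real homology sphere of dimension `2 k`, the links of the vertices are in the class `Folding`. -/
structure SL {W : Type} [DecidableEq W] [Fintype W] (H : SimpleGraph W) (k : ℕ) : Prop where
  sphere : HomologySphere H (2 * k + 1)
  link : ∀ u, Folding (H.induce (H.neighborSet u)) (2 * k)

theorem vanish_empty {V : Type} [IsEmpty V] (G : SimpleGraph V) (k : ℕ) : Vanish G k := by
  refine Vanish.small G k fun σ hσ => ?_
  have h1 : σ = ∅ := Finset.eq_empty_of_isEmpty σ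
  have h2 := hσ.card_eq
  rw [h1, Finset.card_empty] at h2
  omega

theorem SL.induce {W : Type} [d : DecidableEq W] [f : Fintype W] {H : SimpleGraph W} {k : ℕ} (h : SL H k)
    (s : Set W) : Vanish (H.induce s) k := by
  classical
  have key : ∀ t : Finset W, Vanish (H.induce (t : Set W)) k := by
    intro t
    induction t using Finset.induction_on with
    | empty =>
      have : IsEmpty ((∅ : Finset W) : Set W) := ⟨fun x => absurd x.2 (by simp)⟩
      exact vanish_empty _ k
    | insert u t hu ih =>
      refine Vanish.link H d f k h.sphere u (h.link u) _ ?_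
      have h1 : ((insert u t : Finset W) : Set W) \ {u} = (t : Set W) := by
        ext x
        simp only [Finset.coe_insert, Set.mem_sdiff, Set.mem_insert_iff, Finset.mem_coe, Set.mem_singleton_iff]
        constructor
        · rintro ⟨h2 | h2, h3⟩
          · exact absurd h2 h3
          · exact h2
        · exact fun h2 => ⟨Or.inr h2, fun h3 => hu (h3 ▸ h2)⟩
      rw [h1]
      exact ih
  have h2 := key s.toFinset
  rwa [Set.coe_toFinset] at h2

theorem SL.vanish {W : Type} [DecidableEq W] [Fintype W] {H : SimpleGraph W} {k : ℕ} (h : SL H k) :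
    Vanish H k :=
  Vanish.induced H (H.induce Set.univ) k
    ⟨⟨fun x => ⟨x, Set.mem_univ x⟩, fun _ _ hxy => congrArg Subtype.val hxy⟩, Iff.rfl⟩ (h.induce Set.univ)

theorem hs_of {V : Type} [DecidableEq V] [Fintype V] {G : SimpleGraph V} {n : ℕ}
    (h : Pool.Agent.H85.Fold.IsHomologySphere G n) : HomologySphere G n := by
  refine ⟨fun σ hσ => h.dim σ (cl_iff.2 hσ), ?_, ?_⟩
  · intro ν hν ρ hρ j hj z hz hz0
    obtain ⟨y, hy, hyz⟩ := h.low ν hν ρ (cl_iff.2 hρ) j hj z (linkChain_iff.2 hz) hz0
    exact ⟨y, linkChain_iff.1 hy, hyz⟩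
  · intro ν hν ρ hρ j hj
    obtain ⟨o, ho, ho0, hne, hu⟩ := h.top ν hν ρ (cl_iff.2 hρ) j hj
    exact ⟨o, linkChain_iff.1 ho, ho0, hne, fun z hz hz0 => hu z (linkChain_iff.2 hz) hz0⟩

/-- dimension two: all homology spheres -/
theorem SL.one {W : Type} [DecidableEq W] [Fintype W] {H : SimpleGraph W} (h : HomologySphere H 3) : SL H 1 := by
  classical
  refine ⟨h, fun u => ?_⟩
  exact Folding.circle (H.induce (H.neighborSet u)) inferInstance inferInstance
    (hs_of (Pool.Agent.H4.Fold3.link_homologySphere (n := 2) h.is u))

/-- the common neighbours of the vertices in `σ` -/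
def cn {V : Type} (G : SimpleGraph V) (σ : Finset V) : Set V := {w | ∀ v ∈ σ, G.Adj v w}

/-- The link of every clique with `m` vertices is a full subcomplex of a complex in the class `SL`. -/
def LinksSL {V : Type} (G : SimpleGraph V) (k m : ℕ) : Prop :=
  ∀ σ : Finset V, G.IsClique (σ : Set V) → σ.card = m →
    ∃ (W : Type) (_ : DecidableEq W) (_ : Fintype W) (H : SimpleGraph W), SL H k ∧ Nonempty (G.induce (cn G σ) ↪g H)

/-- an embedding of induced subgraphs -/
def emb {V : Type} (G : SimpleGraph V) {s t : Set V} (h : s ⊆ t) : G.induce s ↪g G.induce t :=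
  ⟨⟨fun x => ⟨x.1, h x.2⟩, fun _ _ hxy => Subtype.ext (Subtype.mk.inj hxy)⟩, Iff.rfl⟩

/-- adding the vertices of a set one after the other -/
theorem vanish_add {V : Type} [Finite V] (G : SimpleGraph V) (k : ℕ) (s : Set V)
    (h : ∀ v ∈ s, Vanish (G.induce (s ∩ G.neighborSet v)) k) : Vanish (G.induce s) (k + 1) := by
  classical
  let _ : Fintype V := Fintype.ofFinite V
  have key : ∀ t : Finset V, (∀ x ∈ t, x ∈ s) → Vanish (G.induce (t : Set V)) (k + 1) := by
    intro t
    induction t using Finset.induction_on with
    | empty =>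
      intro _
      have : IsEmpty ((∅ : Finset V) : Set V) := ⟨fun x => absurd x.2 (by simp)⟩
      exact vanish_empty _ _
    | insert u t hu ih =>
      intro ht
      have hus : u ∈ s := ht u (Finset.mem_insert_self u t)
      have hut : u ∈ ((insert u t : Finset V) : Set V) := by simp
      refine Vanish.vertex _ k ⟨u, hut⟩ ?_ ?_
      · refine Vanish.induced _ (G.induce (s ∩ G.neighborSet u)) k ⟨⟨fun x => ⟨x.1.1, ?_, ?_⟩, ?_⟩, ?_⟩ (h u hus)
        · exact ht x.1.1 (Finset.mem_coe.1 x.1.2)
        · exact x.2
        · intro x y hxy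
          exact Subtype.ext (Subtype.ext (Subtype.mk.inj hxy))
        · exact Iff.rfl
      · refine Vanish.induced _ (G.induce (t : Set V)) (k + 1) ⟨⟨fun x => ⟨x.1.1, ?_⟩, ?_⟩, ?_⟩
          (ih fun x hx => ht x (Finset.mem_insert_of_mem hx))
        · have h1 := Finset.mem_coe.1 x.1.2
          rcases Finset.mem_insert.1 h1 with h2 | h2
          · exact absurd (Subtype.ext h2) x.2
          · exact Finset.mem_coe.2 h2
        · intro x y hxy
          exact Subtype.ext (Subtype.ext (Subtype.mk.inj hxy))
        · exact Iff.rfl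
  have h2 := key s.toFinset (fun x hx => Set.mem_toFinset.1 hx)
  rwa [Set.coe_toFinset] at h2

theorem vanish_cn {V : Type} [Finite V] {G : SimpleGraph V} {k m : ℕ} (h : LinksSL G k m) (j : ℕ) :
    ∀ τ : Finset V, G.IsClique (τ : Set V) → τ.card + j = m → ∀ s : Set V, s ⊆ cn G τ →
      Vanish (G.induce s) (k + j) := by
  classical
  induction j with
  | zero =>
    intro τ hτ hm s hs
    obtain ⟨W, i1, i2, H, hH, ⟨e⟩⟩ := h τ hτ hm
    exact Vanish.induced _ H k (e.comp (emb G hs)) hH.vanish
  | succ j ih =>
    intro τ hτ hm s hs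
    refine vanish_add G (k + j) s fun v hv => ?_
    have hvτ : ∀ u ∈ τ, G.Adj u v := hs hv
    have hvn : v ∉ τ := fun h1 => (hvτ v h1).ne rfl
    refine ih (insert v τ) ?_ (by rw [Finset.card_insert_of_notMem hvn]; omega) _ ?_
    · rw [Finset.coe_insert, SimpleGraph.isClique_insert]
      exact ⟨hτ, fun u hu _ => (hvτ u hu).symm⟩
    · rintro w ⟨hws, hwv⟩ u hu
      rcases Finset.mem_insert.1 hu with rfl | hu
      · exact hwv
      · exact hs hws u hu

/-- If the links of all cliques with `m` vertices are full subcomplexes of homology spheres of dimension `2 k`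
with folded vertex links, then the complex is in the class `Vanish` for `k + m`. -/
theorem LinksSL.vanish {V : Type} [Finite V] {G : SimpleGraph V} {k m : ℕ} (h : LinksSL G k m) :
    Vanish G (k + m) := by
  have h1 := vanish_cn h m ∅ (by simp) (by simp) Set.univ (fun w _ v hv => absurd hv (Finset.notMem_empty v))
  exact Vanish.induced G (G.induce Set.univ) _
    ⟨⟨fun x => ⟨x, Set.mem_univ x⟩, fun _ _ hxy => congrArg Subtype.val hxy⟩, Iff.rfl⟩ h1

end Pool.Agent.H67.LF
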