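import Pool.Agent.H67.LF.Main
import Pool.Agent.H19.LI.Final
import Pool.Agent.H19.PD.L2

/-!
# CAT(0) cube complexes whose links are folded in codimension `2 k`
-/

set_option autoImplicit false
set_option linter.unusedSectionVars false

open Finset

namespace Pool.Agent.H67.LF

open Pool.Agent.H85.Fold4 Pool.Agent.H19.Cub Pool.Agent.H19.LI

/-- right-angled Coxeter groups -/
theorem l2_linksSL {V : Type} [DecidableEq V] [Fintype V] {G : SimpleGraph V} {k m : ℕ} (h : LinksSL G k m)
    {i : ℕ} (hi : k + m < i ∨ (HomologySphere G (2 * k + 1 + m) ∧ i ≤ k)) :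
    Pool.Agent.H4.Singer.L2HomologyZero G i := by
  rcases hi with hi | ⟨hS, hi⟩
  · exact h.vanish.l2 i hi
  · exact Pool.Agent.H19.PD.l2_dual (j := 2 * k + 1 + m - i) hS.is (by omega) (h.vanish.l2 _ (by omega))

/-- CAT(0) cube complexes: all links in the class `Vanish` -/
theorem cat0_vanish {V X Γ : Type} [DecidableEq V] [Group Γ] [MulAction Γ V] [MulAction Γ X]
    (C : CubeComplex V X) (hC : IsCAT0 C) (hΓ : IsGeom Γ C) {k : ℕ} (h : ∀ x, Vanish (lk C x) k) {i : ℕ}
    (hi : k < i) : L2Zero C i :=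
  local_global_cat0 hC hΓ i fun x => (h x).l2 i hi

/-- CAT(0) cube complexes: the links of all cubes of dimension `m` are full subcomplexes of homology spheres of
dimension `2 k` with folded vertex links (`n = 2 k + 1 + m`, degrees at least `n - k`, and at most `k`). -/
theorem cat0_linksSL {V X Γ : Type} [DecidableEq V] [Group Γ] [MulAction Γ V] [MulAction Γ X]
    (C : CubeComplex V X) (hC : IsCAT0 C) (hΓ : IsGeom Γ C) {k m : ℕ} (h : ∀ x, LinksSL (lk C x) k m) {i : ℕ}
    (hi : k + m < i ∨ ((∀ x, HomologySphere (lk C x) (2 * k + 1 + m)) ∧ i ≤ k)) : L2Zero C i :=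
  local_global_cat0 hC hΓ i fun x => l2_linksSL (h x) (hi.imp_right fun h1 => ⟨h1.1 x, h1.2⟩)

end Pool.Agent.H67.LF
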